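import Pool.Agent.R284.BL3

set_option autoImplicit false

/-!
# MP_fdf6c3_an: `L`-asymptotic limits whose essential spectrum is a single point

The definitions `BanachLimit`, `PowerBounded`, `IsAsymptoticLimit` are in `Pool.Agent.R284.BL`, the
definition `essSpectrum` is in `Pool.Agent.R284.BL3`.

Idea of the proof: `A = t + K` with `K` compact. For orthonormal `u_1, …, u_N` put
`α = ∑ ⟪u_i, A u_i⟫ = t N + o(N)`. By `T* A T = A`, for every `m`,
`α = ∑ ⟪T^m u_i, A T^m u_i⟫ = t ∑ ‖T^m u_i‖² + o(N)`, uniformly in `m` (Bessel's inequality for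
the adjoint of `T^m`). The `L`-average of `∑ ‖T^m u_i‖²` is `α`, so `α = t α + o(N)`, i.e. `t = t²`.
-/

namespace Pool.Agent.Results.MP_fdf6c3_an.EssentialSpectrumOne

open Pool.Agent.R284.BL

/-- Let `L` be a Banach limit, `T` a power bounded operator on an infinite-dimensional complex Hilbert
space `H` and `A` its `L`-asymptotic limit. If the essential spectrum of `A` is `{t}` with a real
number `t`, then `t = 0` or `t = 1`; so `t > 0` implies `t = 1`. -/
theorem result {H : Type*} [NormedAddCommGroup H] [InnerProductSpace ℂ H] [CompleteSpace H]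
    (hH : ¬ FiniteDimensional ℂ H)
    (L : BanachLimit) (T A : H →L[ℂ] H) (hT : PowerBounded T) (hA : IsAsymptoticLimit L T A)
    (t : ℝ) (ht : essSpectrum A = {(t : ℂ)}) : (t = 0 ∨ t = 1) ∧ (0 < t → t = 1) := by
  have h1 := compact_of_essSpectrum (isPositive hT hA).isSymmetric t ht.le
  have h2 := scalar_add_compact hT hA hH t h1
  refine ⟨h2, fun ht0 => ?_⟩
  rcases h2 with h | h
  · linarith
  · exact h

end Pool.Agent.Results.MP_fdf6c3_an.EssentialSpectrumOne
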